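import Pool.Agent.H91.NV.LTargets

set_option autoImplicit false

open MeasureTheory Set Filter NumberField NumberField.InfinitePlace
open scoped Real

namespace Pool.Agent.H58.NVK

open Pool.Agent.H65.CM4 Pool.Agent.H61.NVK Pool.Agent.H89.NV Pool.Agent.H91.NV

variable (k : Type) [Field k] [NumberField k] [IsTotallyReal k]

omit [IsTotallyReal k] in
/-- a nonzero ideal is not contained in its product with a prime -/
theorem exists_mem_notMem (P : PrI k) (f : Ideal (𝓞 k)) (hf : f ≠ ⊥) :
    ∃ φ ∈ f, φ ∉ P.1 * f := by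
  by_contra hcon
  push Not at hcon
  have h1 : P.1 * f = f := le_antisymm Ideal.mul_le_right hcon
  have h2 : P.1 * f = 1 * f := by rw [h1, one_mul]
  have h3 : P.1 = 1 := mul_right_cancel₀ hf h2
  rw [Ideal.one_eq_top] at h3
  exact P.2.1.ne_top h3

omit [IsTotallyReal k] in
/-- the average number of roots at the primes dividing the form -/
theorem pf_NRA (hRSB : T_RSB k) (hIDL : T_IDL k) (hNRI : T_NRI k) (hMIS : T_MIS k)
    (hNRM : T_NRM k) : T_NRA k := by
  classical
  intro f A P hf hA hPA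
  obtain ⟨hA1, hA1ne, -⟩ := hIDL.2.1 A P.1 hA hPA
  set A1 : Ideal (𝓞 k) := dvi A P.1 with hA1def
  have hPne : P.1 ≠ ⊥ := P.2.2
  have hN := fun b c => hNRI f P.1 A1 b c hf hPne
  have hAf : P.1 * (A1 * f ^ 2) = A * f ^ 2 := by rw [← mul_assoc, hA1]
  have hperc : ∀ b, ∀ c ∈ A * f ^ 2, nr f P.1 A1 b c = nr f P.1 A1 b 0 := by
    intro b c hc
    have h1 := (hN b 0).2.2.2.2 c (by rw [hAf]; exact hc)
    rwa [zero_add] at h1
  refine ⟨?_, ?_⟩
  · obtain ⟨φ, hφ, hφ'⟩ := exists_mem_notMem k P f hf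
    obtain ⟨α, hα, hα'⟩ := exists_mem_notMem k P A hA
    obtain ⟨α₁, hα₁, hα₁'⟩ := exists_mem_notMem k P A1 hA1ne
    have hper : Per f (P.1 ^ 1) (fun b => (nr f P.1 A1 b 0 : ℝ)) := by
      intro x _ y hy
      rw [pow_one] at hy
      simp only
      rw [(hN x 0).2.2.2.1 y hy]
    have hm := hMIS f P 1 φ (fun b => (nr f P.1 A1 b 0 : ℝ)) hf hφ hφ' hper
    rw [pow_one] at hm
    rw [hm]
    have hnr : ∀ b, nr f P.1 A1 (φ * b) 0 =
        ((Rs P.1).filter (fun s => α₁ * s ^ 2 + b * s ∈ P.1)).card := by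
      intro b
      have h1 := (hNRM f A P φ α b 0 hf hA hφ hφ' hα hα').2.2.2 hPA α₁ hα₁ hα₁'
      rw [mul_zero] at h1
      exact h1
    simp only [hnr]
    obtain ⟨huniq, hcard⟩ := hRSB.1 P.1 hPne
    have hnp : np P = ((Rs P.1).card : ℝ) := by
      rw [hcard]; rfl
    unfold mI
    rw [Ideal.mul_top]
    have hfil : (Rs P.1).filter (fun x => x ∈ (⊤ : Ideal (𝓞 k))) = Rs P.1 :=
      Finset.filter_true_of_mem fun x _ => Submodule.mem_top
    -- the double count
    have hdc : ∑ x ∈ Rs P.1, ((Rs P.1).filter (fun s => α₁ * s ^ 2 + x * s ∈ P.1)).card =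
        ∑ s ∈ Rs P.1, if s ∈ P.1 then (Rs P.1).card else 1 := by
      simp only [Finset.card_filter]
      rw [Finset.sum_comm]
      refine Finset.sum_congr rfl fun s hs => ?_
      by_cases hsP : s ∈ P.1
      · rw [if_pos hsP, Finset.card_eq_sum_ones]
        refine Finset.sum_congr rfl fun x _ => ?_
        rw [if_pos]
        exact P.1.add_mem (P.1.mul_mem_left _ (Ideal.pow_mem_of_mem _ hsP 2 (by norm_num)))
          (P.1.mul_mem_left _ hsP)
      · rw [if_neg hsP, ← Finset.card_filter, Finset.card_eq_one]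
        obtain ⟨r, ⟨hr, hr2⟩, hr3⟩ := huniq (-(α₁ * s))
        refine ⟨r, Finset.ext fun x => ?_⟩
        rw [Finset.mem_filter, Finset.mem_singleton]
        constructor
        · rintro ⟨hx, hx2⟩
          apply hr3 x
          refine ⟨hx, ?_⟩
          have h1 : s * (α₁ * s + x) ∈ P.1 := by
            have : s * (α₁ * s + x) = α₁ * s ^ 2 + x * s := by ring
            rw [this]; exact hx2
          rcases P.2.1.mem_or_mem h1 with h2 | h2
          · exact absurd h2 hsP
          · have : -(α₁ * s) - x = -(α₁ * s + x) := by ring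
            rw [this]; exact P.1.neg_mem h2
        · intro hx
          subst hx
          refine ⟨hr, ?_⟩
          have : α₁ * s ^ 2 + x * s = -(s * (-(α₁ * s) - x)) := by ring
          rw [this]
          exact P.1.neg_mem (P.1.mul_mem_left _ hr2)
    have hone : ((Rs P.1).filter (fun s => s ∈ P.1)).card = 1 := by
      rw [Finset.card_eq_one]
      obtain ⟨r, ⟨hr, hr2⟩, hr3⟩ := huniq 0
      refine ⟨r, Finset.ext fun x => ?_⟩
      rw [Finset.mem_filter, Finset.mem_singleton]
      rw [zero_sub] at hr2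
      constructor
      · rintro ⟨hx, hx2⟩
        exact hr3 x ⟨hx, by rw [zero_sub]; exact P.1.neg_mem hx2⟩
      · intro hx
        subst hx
        exact ⟨hr, by simpa using P.1.neg_mem hr2⟩
    have hsum : (∑ s ∈ Rs P.1, if s ∈ P.1 then (Rs P.1).card else 1) + 1 =
        2 * (Rs P.1).card := by
      rw [Finset.sum_ite, Finset.sum_const, Finset.sum_const, hone, smul_eq_mul, one_mul,
        smul_eq_mul, mul_one]
      have h2 := Finset.card_filter_add_card_filter_not (s := Rs P.1) (fun s => s ∈ P.1)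
      rw [hone] at h2
      omega
    have hpos : (0 : ℝ) < ((Rs P.1).card : ℝ) := by
      rw [← hnp]
      have := hIDL.2.2.2.2.2.1 P
      linarith
    have hR : (∑ x ∈ Rs P.1, (((Rs P.1).filter (fun s => α₁ * s ^ 2 + x * s ∈ P.1)).card : ℝ)) =
        2 * ((Rs P.1).card : ℝ) - 1 := by
      have h3 : ((∑ x ∈ Rs P.1, ((Rs P.1).filter (fun s => α₁ * s ^ 2 + x * s ∈ P.1)).card : ℕ) :
          ℝ) + 1 = 2 * ((Rs P.1).card : ℝ) := by
        rw [hdc]
        exact_mod_cast hsum
      rw [Nat.cast_sum] at h3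
      linarith
    have hnm : nm P.1 = ((Rs P.1).card : ℝ) := hnp
    rw [hfil, hR, hnm, hnp]
    field_simp
  · intro b hb
    refine ⟨hperc b, (hN b 0).2.2.2.1, ?_⟩
    intro j hj
    have hj1 : j ∈ A1 * f := by
      rw [← hA1, mul_assoc] at hj
      exact Ideal.mul_le_right hj
    have h1 := (hN b 0).2.2.1 hb j hj1
    rw [add_zero] at h1
    rw [← h1]
    refine (hperc (b + 2 * j) (j ^ 2 + b * j) ?_).symm
    have hjf : j ∈ f := Ideal.mul_le_right (I := A) (J := f) hj
    have e1 : A * f ^ 2 = (A * f) * f := by rw [pow_two, mul_assoc]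
    rw [e1]
    refine Ideal.add_mem _ ?_ ?_
    · rw [pow_two]; exact Ideal.mul_mem_mul hj hjf
    · rw [mul_comm b j]; exact Ideal.mul_mem_mul hj hb

end Pool.Agent.H58.NVK
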